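import Pool.Agent.H51.EG2

/-!
# The edge imbalances of a graph without edges of imbalance zero form a graphic multiset

Proof.  By the theorem of Erdős and Gallai, in its form for sets, it is to be shown for every set
`A` of `k` edges that `∑_{e ∈ A} imb(e) ≤ k (k - 1) + ∑_{e ∉ A} min(imb(e), k)`.  An edge of `A`
with imbalance less than `k` can be removed from `A`; so let all of them have imbalance at least
`k`.  Let `u` be a vertex of the largest degree `D` among the ends of edges in `A`, and `N` a set of
`D - k` neighbours of `u` which are joined to `u` by edges not in `A`.  For `w ∈ N` the edge `uw` and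
the edges from `w` to the vertices outside of `N` contribute, if they are not in `A`, at least `k`
minus the number of the edges in `A` whose end of larger degree is `w`: the edge `uw` contributes
`min(k, |D - d(w)|)`, and at least `d(w) - (D - k)` edges lead from `w` to vertices outside of
`N ∪ {u}`.  An edge of `A` whose end of larger degree is in `N` has imbalance at most `D - 2`, as
the neighbours of `u` have degrees different from `D`, and any edge of `A` has imbalance at most
`D - 1`.
-/

set_option autoImplicit false

namespace Pool.Agent.Results.MP_440a65_co.ImbalanceGraphic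

open Finset

/-- The imbalance of the edge `uv`: the absolute value of the difference of the degrees of `u` and
`v`. -/
def imb {V : Type*} [Fintype V] (G : SimpleGraph V) [DecidableRel G.Adj] (e : Sym2 V) : ℕ :=
  Sym2.lift ⟨fun u v => ((G.degree u : ℤ) - (G.degree v : ℤ)).natAbs, by
    intro u v
    show ((G.degree u : ℤ) - (G.degree v : ℤ)).natAbs = ((G.degree v : ℤ) - (G.degree u : ℤ)).natAbs
    omega⟩ e

/-- The finite multiset `M` of nonnegative integers is graphic: it is the multiset of the degrees
of a finite simple graph. -/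
def IsGraphic (M : Multiset ℕ) : Prop :=
  ∃ (n : ℕ) (H : SimpleGraph (Fin n)) (_ : DecidableRel H.Adj),
    (Finset.univ.val.map fun i => H.degree i) = M

section

variable {V : Type*} [Fintype V] [DecidableEq V] (G : SimpleGraph V) [DecidableRel G.Adj]

omit [DecidableEq V] in
lemma imb_mk (u v : V) : imb G s(u, v) = ((G.degree u : ℤ) - (G.degree v : ℤ)).natAbs := rfl

omit [DecidableEq V] in
/-- an end of larger degree -/
lemma exists_high (e : Sym2 V) (he : e ∈ G.edgeFinset) :
    ∃ u ∈ e, imb G e + 1 ≤ G.degree u ∧ ∀ x ∈ e, x ≠ u → G.degree x + imb G e = G.degree u := by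
  induction e using Sym2.ind with
  | _ a b =>
    rw [SimpleGraph.mem_edgeFinset, SimpleGraph.mem_edgeSet] at he
    have ha : 1 ≤ G.degree a := (G.degree_pos_iff_exists_adj a).2 ⟨b, he⟩
    have hb : 1 ≤ G.degree b := (G.degree_pos_iff_exists_adj b).2 ⟨a, he.symm⟩
    rw [imb_mk]
    rcases le_total (G.degree a) (G.degree b) with h | h
    · refine ⟨b, Sym2.mem_mk_right a b, by omega, ?_⟩
      intro x hx hxb
      rw [Sym2.mem_iff] at hx
      rcases hx with rfl | rfl
      · omega
      · exact absurd rfl hxb
    · refine ⟨a, Sym2.mem_mk_left a b, by omega, ?_⟩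
      intro x hx hxb
      rw [Sym2.mem_iff] at hx
      rcases hx with rfl | rfl
      · exact absurd rfl hxb
      · omega

/-- the inequality for a set `A` of edges whose imbalances are at least `|A|` -/
lemma core (hG : ∀ u v, G.Adj u v → G.degree u ≠ G.degree v) (A : Finset (Sym2 V))
    (hA : A ⊆ G.edgeFinset) (hk : ∀ e ∈ A, A.card ≤ imb G e) :
    ∑ e ∈ A, imb G e ≤ A.card * (A.card - 1) +
      ∑ e ∈ G.edgeFinset \ A, min (imb G e) A.card := by
  classical
  rcases A.eq_empty_or_nonempty with rfl | hne
  · simp
  set k := A.card with hkdef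
  have hk1 : 1 ≤ k := hne.card_pos
  have hpos : ∀ e ∈ G.edgeFinset, 1 ≤ imb G e := by
    intro e
    induction e using Sym2.ind with
    | _ a b =>
      intro he
      rw [SimpleGraph.mem_edgeFinset, SimpleGraph.mem_edgeSet] at he
      have := hG a b he
      rw [imb_mk]
      omega
  have hV : Nonempty V := by
    obtain ⟨e, he⟩ := hne
    obtain ⟨u, _, _⟩ := exists_high G e (hA he)
    exact ⟨u⟩
  choose! h hmem h1 h2 using fun e he => exists_high G e he
  obtain ⟨e0, he0, hmax⟩ := A.exists_max_image (fun e => G.degree (h e)) hne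
  set u0 := h e0 with hu0
  set D := G.degree u0 with hD
  have hDk : k + 1 ≤ D := by
    have a1 := h1 e0 (hA he0)
    have a2 := hk e0 he0
    rw [← hu0, ← hD] at a1
    omega
  -- the neighbours joined by edges not in `A`
  set T := (G.neighborFinset u0).filter (fun w => s(u0, w) ∉ A) with hT
  have hTcard : D - k ≤ T.card := by
    have a1 : ((G.neighborFinset u0).filter (fun w => s(u0, w) ∈ A)).card ≤ k := by
      refine Finset.card_le_card_of_injOn (fun w => s(u0, w)) ?_ ?_
      · intro w hw
        exact (Finset.mem_filter.1 hw).2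
      · intro w _ w' _ hww
        exact Sym2.congr_right.1 hww
    have a2 := Finset.card_filter_add_card_filter_not (s := G.neighborFinset u0)
      (fun w => s(u0, w) ∈ A)
    rw [SimpleGraph.card_neighborFinset_eq_degree, ← hD, ← hT] at a2
    omega
  obtain ⟨N, hNT, hNcard⟩ := Finset.exists_subset_card_eq hTcard
  have hNadj : ∀ w ∈ N, G.Adj u0 w := fun w hw => by
    have := (Finset.mem_filter.1 (hNT hw)).1
    rwa [SimpleGraph.mem_neighborFinset] at this
  have hNA : ∀ w ∈ N, s(u0, w) ∉ A := fun w hw => (Finset.mem_filter.1 (hNT hw)).2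
  have hu0N : u0 ∉ N := fun hh => G.irrefl (hNadj u0 hh)
  let X : V → Finset V := fun w =>
    (G.neighborFinset w).filter (fun x => x ∉ N ∧ x ≠ u0 ∧ s(w, x) ∉ A)
  let F : V → Finset (Sym2 V) := fun w => insert s(u0, w) ((X w).image fun x => s(w, x))
  have hXmem : ∀ w x, x ∈ X w ↔ G.Adj w x ∧ x ∉ N ∧ x ≠ u0 ∧ s(w, x) ∉ A := by
    intro w x
    simp [X]
  have hFsub : ∀ w ∈ N, F w ⊆ G.edgeFinset \ A := by
    intro w hw f hf
    rw [Finset.mem_sdiff, SimpleGraph.mem_edgeFinset]
    rcases Finset.mem_insert.1 hf with rfl | hf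
    · exact ⟨(hNadj w hw), hNA w hw⟩
    · obtain ⟨x, hx, rfl⟩ := Finset.mem_image.1 hf
      rw [hXmem] at hx
      exact ⟨hx.1, hx.2.2.2⟩
  have hFdisj : ∀ w ∈ N, ∀ w' ∈ N, w ≠ w' → Disjoint (F w) (F w') := by
    intro w hw w' hw' hww
    rw [Finset.disjoint_left]
    intro f hf hf'
    -- every element of `F w` contains `w` and a vertex outside of `N`
    have key : ∀ w ∈ N, ∀ f ∈ F w, w ∈ f ∧ ∀ y ∈ f, y ∈ N → y = w := by
      intro w hw f hf
      rcases Finset.mem_insert.1 hf with rfl | hf
      · refine ⟨Sym2.mem_mk_right _ _, fun y hy hyN => ?_⟩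
        rw [Sym2.mem_iff] at hy
        rcases hy with rfl | rfl
        · exact absurd hyN hu0N
        · rfl
      · obtain ⟨x, hx, rfl⟩ := Finset.mem_image.1 hf
        rw [hXmem] at hx
        refine ⟨Sym2.mem_mk_left _ _, fun y hy hyN => ?_⟩
        rw [Sym2.mem_iff] at hy
        rcases hy with rfl | rfl
        · rfl
        · exact absurd hyN hx.2.1
    exact hww ((key w' hw' f hf').2 w (key w hw f hf).1 hw)
  have hFsum : ∀ w ∈ N, k ≤ ∑ f ∈ F w, min (imb G f) k + (A.filter fun e => h e = w).card := by
    intro w hw
    have hnot : s(u0, w) ∉ (X w).image fun x => s(w, x) := by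
      intro hh
      obtain ⟨x, hx, hxe⟩ := Finset.mem_image.1 hh
      rw [hXmem] at hx
      have : x = u0 := by
        rw [Sym2.eq_swap] at hxe
        exact Sym2.congr_left.1 hxe
      exact hx.2.2.1 this
    have hS : ∑ f ∈ F w, min (imb G f) k =
        min (imb G s(u0, w)) k + ∑ x ∈ X w, min (imb G s(w, x)) k := by
      rw [Finset.sum_insert hnot, Finset.sum_image]
      intro x _ y _ hxy
      exact Sym2.congr_right.1 hxy
    have hS2 : (X w).card ≤ ∑ x ∈ X w, min (imb G s(w, x)) k := by
      rw [Finset.card_eq_sum_ones]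
      refine Finset.sum_le_sum fun x hx => ?_
      rw [hXmem] at hx
      have := hpos s(w, x) (by rw [SimpleGraph.mem_edgeFinset]; exact hx.1)
      exact le_min this hk1
    rw [hS, imb_mk]
    by_cases hcase : k ≤ ((G.degree u0 : ℤ) - (G.degree w : ℤ)).natAbs
    · omega
    · -- count the neighbours of `w`
      have c1 : G.degree w ≤ (X w).card + (D - k - 1) + 1 + (A.filter fun e => w ∈ e).card := by
        rw [← SimpleGraph.card_neighborFinset_eq_degree]
        have b1 : G.neighborFinset w ⊆ ((X w ∪ N.erase w) ∪ {u0}) ∪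
            (G.neighborFinset w).filter (fun x => s(w, x) ∈ A) := by
          intro x hx
          have hx' := (SimpleGraph.mem_neighborFinset _ _ _).1 hx
          by_cases hxA : s(w, x) ∈ A
          · exact Finset.mem_union_right _ (Finset.mem_filter.2 ⟨hx, hxA⟩)
          refine Finset.mem_union_left _ ?_
          by_cases hxu : x = u0
          · exact Finset.mem_union_right _ (Finset.mem_singleton.2 hxu)
          refine Finset.mem_union_left _ ?_
          by_cases hxN : x ∈ N
          · exact Finset.mem_union_right _ (Finset.mem_erase.2 ⟨hx'.ne', hxN⟩)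
          · exact Finset.mem_union_left _ ((hXmem w x).2 ⟨hx', hxN, hxu, hxA⟩)
        have b2 : ((G.neighborFinset w).filter (fun x => s(w, x) ∈ A)).card ≤
            (A.filter fun e => w ∈ e).card := by
          refine Finset.card_le_card_of_injOn (fun x => s(w, x)) ?_ ?_
          · intro x hx
            exact Finset.mem_filter.2 ⟨(Finset.mem_filter.1 hx).2, Sym2.mem_mk_left _ _⟩
          · intro x _ x' _ hxx
            exact Sym2.congr_right.1 hxx
        have b3 := Finset.card_le_card b1
        have b4 := Finset.card_union_le ((X w ∪ N.erase w) ∪ {u0})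
          ((G.neighborFinset w).filter (fun x => s(w, x) ∈ A))
        have b5 := Finset.card_union_le (X w ∪ N.erase w) {u0}
        have b6 := Finset.card_union_le (X w) (N.erase w)
        have b7 := Finset.card_erase_of_mem hw
        rw [Finset.card_singleton] at b5
        omega
      have c2 : (A.filter fun e => w ∈ e).card ≤ (A.filter fun e => h e = w).card := by
        refine Finset.card_le_card ?_
        intro e he
        obtain ⟨heA, hwe⟩ := Finset.mem_filter.1 he
        refine Finset.mem_filter.2 ⟨heA, ?_⟩
        by_contra hne'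
        have d1 := h2 e (hA heA) w hwe (fun hh => hne' hh.symm)
        have d2 := hk e heA
        have d3 := hmax e heA
        omega
      omega
  -- the sum over all the edges outside of `A`
  have hR : ∑ w ∈ N, ∑ f ∈ F w, min (imb G f) k ≤ ∑ e ∈ G.edgeFinset \ A, min (imb G e) k := by
    rw [← Finset.sum_biUnion (fun w hw w' hw' hww => hFdisj w hw w' hw' hww)]
    refine Finset.sum_le_sum_of_subset ?_
    intro f hf
    obtain ⟨w, hw, hfw⟩ := Finset.mem_biUnion.1 hf
    exact hFsub w hw hfw
  have hR2 : ∑ w ∈ N, (A.filter fun e => h e = w).card = (A.filter fun e => h e ∈ N).card := by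
    rw [Finset.card_eq_sum_card_fiberwise (s := A.filter fun e => h e ∈ N) (f := h) (t := N)
      (fun e he => (Finset.mem_filter.1 (Finset.mem_coe.1 he)).2)]
    refine Finset.sum_congr rfl fun w hw => ?_
    congr 1
    ext e
    simp only [Finset.mem_filter]
    constructor
    · rintro ⟨a1, rfl⟩
      exact ⟨⟨a1, hw⟩, rfl⟩
    · rintro ⟨⟨a1, _⟩, rfl⟩
      exact ⟨a1, rfl⟩
  have hR3 : k * (D - k) ≤ ∑ e ∈ G.edgeFinset \ A, min (imb G e) k +
      (A.filter fun e => h e ∈ N).card := by
    have a1 : ∑ w ∈ N, k ≤ ∑ w ∈ N, (∑ f ∈ F w, min (imb G f) k +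
        (A.filter fun e => h e = w).card) := Finset.sum_le_sum hFsum
    rw [Finset.sum_const, smul_eq_mul, hNcard, Finset.sum_add_distrib, hR2, Nat.mul_comm] at a1
    omega
  -- the sum over `A`
  have hL : ∑ e ∈ A, imb G e + (A.filter fun e => h e ∈ N).card ≤ k * (D - 1) := by
    rw [Finset.card_filter, ← Finset.sum_add_distrib]
    calc ∑ e ∈ A, (imb G e + if h e ∈ N then 1 else 0) ≤ ∑ _e ∈ A, (D - 1) := by
          refine Finset.sum_le_sum fun e he => ?_
          have a1 := h1 e (hA he)
          have a2 : G.degree (h e) ≤ D := hmax e he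
          by_cases hN : h e ∈ N
          · rw [if_pos hN]
            have a3 := hG u0 (h e) (hNadj _ hN)
            have a4 : G.degree u0 = D := rfl
            omega
          · rw [if_neg hN]
            omega
      _ = k * (D - 1) := by rw [Finset.sum_const, smul_eq_mul]
  have hfin : k * (D - 1) = k * (k - 1) + k * (D - k) := by
    rw [← Nat.mul_add]
    congr 1
    omega
  omega

/-- the inequality for all sets of edges -/
lemma all_sets (hG : ∀ u v, G.Adj u v → G.degree u ≠ G.degree v) : ∀ (n : ℕ) (A : Finset (Sym2 V)),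
    A.card = n → A ⊆ G.edgeFinset →
    ∑ e ∈ A, imb G e ≤ A.card * (A.card - 1) +
      ∑ e ∈ G.edgeFinset \ A, min (imb G e) A.card := by
  classical
  intro n
  induction n with
  | zero =>
    intro A hn hA
    exact core G hG A hA (fun e he => by
      have := Finset.card_pos.2 ⟨e, he⟩
      omega)
  | succ n ih =>
    intro A hn hA
    by_cases hall : ∀ e ∈ A, A.card ≤ imb G e
    · exact core G hG A hA hall
    · push Not at hall
      obtain ⟨e, he, hlt⟩ := hall
      have hc : (A.erase e).card = n := by rw [Finset.card_erase_of_mem he]; omega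
      have h1 := ih (A.erase e) hc ((Finset.erase_subset _ _).trans hA)
      rw [hc] at h1
      rw [hn] at hlt ⊢
      have h2 : ∑ f ∈ A, imb G f = imb G e + ∑ f ∈ A.erase e, imb G f :=
        (Finset.add_sum_erase _ _ he).symm
      have h3 : G.edgeFinset \ A.erase e = insert e (G.edgeFinset \ A) := by
        ext f
        simp only [Finset.mem_sdiff, Finset.mem_erase, Finset.mem_insert, not_and]
        by_cases hfe : f = e
        · subst hfe
          simp [hA he]
        · simp [hfe]
      have h4 : ∑ f ∈ G.edgeFinset \ A.erase e, min (imb G f) n =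
          min (imb G e) n + ∑ f ∈ G.edgeFinset \ A, min (imb G f) n := by
        rw [h3, Finset.sum_insert]
        simp [he]
      have h5 : ∑ f ∈ G.edgeFinset \ A, min (imb G f) n ≤
          ∑ f ∈ G.edgeFinset \ A, min (imb G f) (n + 1) :=
        Finset.sum_le_sum fun f _ => min_le_min le_rfl (Nat.le_succ n)
      have h6 : (n + 1) * (n + 1 - 1) = n * (n - 1) + 2 * n := by
        rcases n with _ | n
        · rfl
        · simp only [Nat.add_sub_cancel]
          ring
      have h7 : min (imb G e) n ≤ n := min_le_right _ _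
      omega

/-- the sum of the imbalances is even -/
lemma even_sum : Even (∑ e ∈ G.edgeFinset, imb G e) := by
  classical
  have h1 : ∀ e ∈ G.edgeFinset, (imb G e : ZMod 2) =
      ∑ v, if v ∈ e then (G.degree v : ZMod 2) else 0 := by
    intro e
    induction e using Sym2.ind with
    | _ a b =>
      intro he
      rw [SimpleGraph.mem_edgeFinset, SimpleGraph.mem_edgeSet] at he
      have h2 : ∑ v, (if v ∈ s(a, b) then (G.degree v : ZMod 2) else 0) =
          (G.degree a : ZMod 2) + G.degree b := by
        rw [← Finset.sum_filter]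
        have : (Finset.univ.filter fun v => v ∈ s(a, b)) = {a, b} := by
          ext v
          simp
        rw [this, Finset.sum_pair he.ne]
      rw [h2, imb_mk]
      have h3 : ((((G.degree a : ℤ) - (G.degree b : ℤ)).natAbs : ℕ) : ZMod 2) =
          (((G.degree a : ℤ) - (G.degree b : ℤ) : ℤ) : ZMod 2) := by
        generalize (G.degree a : ℤ) - (G.degree b : ℤ) = z
        rcases Int.natAbs_eq z with h | h
        · rw [← Int.cast_natCast, ← h]
        · rw [← Int.cast_natCast]
          conv_rhs => rw [h]
          rw [Int.cast_neg, ZMod.neg_eq_self_mod_two]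
      rw [h3]
      push_cast
      rw [sub_eq_add_neg, ZMod.neg_eq_self_mod_two]
  rw [← ZMod.natCast_eq_zero_iff_even]
  push_cast
  rw [Finset.sum_congr rfl h1, Finset.sum_comm]
  have h4 : ∀ v, ∑ e ∈ G.edgeFinset, (if v ∈ e then (G.degree v : ZMod 2) else 0) =
      (G.degree v : ZMod 2) := by
    intro v
    rw [← Finset.sum_filter, Finset.sum_const, ← SimpleGraph.incidenceFinset_eq_filter,
      SimpleGraph.card_incidenceFinset_eq_degree, nsmul_eq_mul]
    generalize (G.degree v : ZMod 2) = x
    revert x
    decide
  rw [Finset.sum_congr rfl fun v _ => h4 v]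
  have h5 := G.sum_degrees_eq_twice_card_edges
  have h6 : ((∑ v, G.degree v : ℕ) : ZMod 2) = 0 := by
    rw [h5]
    push_cast
    have : (2 : ZMod 2) = 0 := by decide
    rw [this, zero_mul]
  push_cast at h6
  exact h6

end

/-- Let `G` be a finite simple graph in which every edge has positive imbalance, i.e. any two
adjacent vertices have different degrees.  Then the multiset `{imb(e) : e ∈ E(G)}` is graphic. -/
theorem result {V : Type*} [Fintype V] [DecidableEq V] (G : SimpleGraph V) [DecidableRel G.Adj]
    (hG : ∀ e ∈ G.edgeFinset, 0 < imb G e) :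
    IsGraphic (G.edgeFinset.val.map (imb G)) := by
  classical
  have hG' : ∀ u v, G.Adj u v → G.degree u ≠ G.degree v := by
    intro u v huv heq
    have := hG s(u, v) (by rw [SimpleGraph.mem_edgeFinset]; exact huv)
    rw [imb_mk, heq] at this
    simp at this
  obtain ⟨m, g, hgimg⟩ : ∃ (m : ℕ) (g : Fin m ↪ Sym2 V), Finset.univ.map g = G.edgeFinset := by
    let φ : G.edgeFinset ≃ Fin G.edgeFinset.card := G.edgeFinset.equivFin
    refine ⟨G.edgeFinset.card, ⟨fun i => (φ.symm i).1, fun i j hij =>
      φ.symm.injective (Subtype.ext hij)⟩, ?_⟩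
    ext e
    rw [Finset.mem_map]
    constructor
    · rintro ⟨i, _, rfl⟩
      exact (φ.symm i).2
    · intro he
      refine ⟨φ ⟨e, he⟩, Finset.mem_univ _, ?_⟩
      show (φ.symm (φ ⟨e, he⟩)).1 = e
      rw [Equiv.symm_apply_apply]
  let d : Fin m → ℕ := fun i => imb G (g i)
  have hgr : Pool.Agent.H51.EG.Gr d := by
    refine Pool.Agent.H51.EG.eg_subset d ?_ ?_
    · have h1 := even_sum G
      rw [← hgimg, Finset.sum_map] at h1
      exact h1
    · intro K
      have h1 := all_sets G hG' _ (K.map g) rfl (by
        rw [← hgimg]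
        exact Finset.map_subset_map.2 (Finset.subset_univ K))
      rw [← hgimg] at h1
      have h2 : Finset.univ.map g \ K.map g = Kᶜ.map g := by
        rw [Finset.compl_eq_univ_sdiff]
        ext e
        simp only [Finset.mem_sdiff, Finset.mem_map, Finset.mem_univ, true_and, not_exists, not_and]
        constructor
        · rintro ⟨⟨i, rfl⟩, h3⟩
          exact ⟨i, fun hi => h3 i hi rfl, rfl⟩
        · rintro ⟨i, hi, rfl⟩
          exact ⟨⟨i, rfl⟩, fun j hj hji => hi (g.injective hji ▸ hj)⟩
      rw [h2, Finset.sum_map, Finset.sum_map, Finset.card_map] at h1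
      exact h1
  obtain ⟨A, hA, hAd⟩ := hgr
  have hreal := Pool.Agent.H51.EG.toG_realizes hA hAd
  refine ⟨m, Pool.Agent.H51.EG.toG A hA, Classical.decRel _, ?_⟩
  rw [← hgimg, Finset.map_val, Multiset.map_map]
  refine Multiset.map_congr rfl fun i _ => ?_
  have h1 := hreal i
  rw [Set.ncard_eq_toFinset_card'] at h1
  rw [← SimpleGraph.card_neighborFinset_eq_degree]
  show _ = d i
  rw [← h1]
  congr 1

end Pool.Agent.Results.MP_440a65_co.ImbalanceGraphic
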